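import Mathlib
import Pool.Agent.Helper94.EngelTFAE
import Pool.Agent.Helper94.EngelChain.Fitting

set_option autoImplicit false

namespace Pool.Agent.Results.MP_a45045_al.RightOrderableBounded

/-- For all `n, m` there is `c` such that if a group `G` is the product of normal subgroups `H` and
`K`, where `H` is `n`-Engel and `K` is `m`-Engel and both are right orderable, then `G` is nilpotent
of class at most `c`, and `c`-Engel. -/
theorem result :
    ∀ n m : ℕ, ∃ c : ℕ, ∀ (G : Type) [Group G] (H K : Subgroup G), H.Normal → K.Normal →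
      H ⊔ K = ⊤ →
      (∀ x y : H, (fun z : H => z⁻¹ * y⁻¹ * z * y)^[n] x = 1) →
      (∀ x y : K, (fun z : K => z⁻¹ * y⁻¹ * z * y)^[m] x = 1) →
      (∃ lo : LinearOrder H, ∀ a b d : H, lo.lt a b → lo.lt (a * d) (b * d)) →
      (∃ lo : LinearOrder K, ∀ a b d : K, lo.lt a b → lo.lt (a * d) (b * d)) →
        Subgroup.upperCentralSeries G c = ⊤ ∧
          ∀ x y : G, (fun z : G => z⁻¹ * y⁻¹ * z * y)^[c] x = 1 := by
  classical
  intro n m
  obtain ⟨c, hc⟩ := Pool.Agent.Helper94.EngelTFAE.class_of_ro n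
  obtain ⟨d, hd⟩ := Pool.Agent.Helper94.EngelTFAE.class_of_ro m
  refine ⟨c + d, ?_⟩
  intro G _ H K hHn hKn hHK hE hF hoH hoK
  have conv : ∀ (K : Type) [Group K],
      (∃ lo : LinearOrder K, ∀ a b d : K, lo.lt a b → lo.lt (a * d) (b * d)) →
      ∃ lo : LinearOrder K, ∀ a b d : K, lo.le a b → lo.le (a * d) (b * d) := by
    rintro K _ ⟨lo, hlo⟩
    refine ⟨lo, ?_⟩
    intro a b d hab
    let _ := lo
    rcases eq_or_lt_of_le hab with h | h
    · rw [h]
    · exact le_of_lt (hlo a b d h)
  have h1 : Subgroup.upperCentralSeries G (c + d) = ⊤ :=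
    Pool.Agent.Helper94.Fitting.fitting_upper H K hHK c d ((hc H hE).1 (conv H hoH))
      ((hd K hF).1 (conv K hoK))
  refine ⟨h1, ?_⟩
  intro x y
  rw [← Subgroup.lowerCentralSeries_eq_bot_iff_upperCentralSeries_eq_top] at h1
  have h2 : ∀ k : ℕ, (fun z : G => z⁻¹ * y⁻¹ * z * y)^[k] x ∈
      (⊤ : Subgroup G).lowerCentralSeries k := by
    intro k
    induction k with
    | zero => exact Subgroup.mem_top x
    | succ k ih =>
      rw [Function.iterate_succ_apply', Subgroup.lowerCentralSeries_succ]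
      have := Subgroup.commutator_mem_commutator (Subgroup.inv_mem _ ih) (Subgroup.mem_top y⁻¹)
      rw [commutatorElement_def, inv_inv, inv_inv] at this
      exact this
  have h3 := h2 (c + d)
  rw [h1, Subgroup.mem_bot] at h3
  exact h3

end Pool.Agent.Results.MP_a45045_al.RightOrderableBounded
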